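import Pool.Agent.RkT.Arr57

/-!
# Ranks of elliptic curves over the rationals for different torsion groups

For `T = ℤ/n × ℤ/m` let `Ranks n m` be the set of the ranks of the elliptic curves over `ℚ` whose torsion group is
isomorphic to `T` and let `B n m` be the supremum of `Ranks n m`.  Fifteen inclusions between these sets are
proved.  They show that every rank that occurs together with one of the fifteen groups of Mazur's theorem occurs
together with the trivial group (if the order of the group is odd) or with the group of order two (if it is even),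
that `B(T) = ∞` for some `T` if and only if it holds for one of the groups of order at most two, and that it holds
for all `T` if and only if it holds for six of them.

For every curve `E` with torsion group `T` a chain of isogenies of degree 2, 3, 5 or 7 to a curve with torsion group
`T'` is constructed.  Mazur's theorem is not used.  The isogenies of degree 5 and 7 are the quotients of the
universal curves with a rational point of order 5 or 7 by that point; the dual homomorphism is constructed over the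
algebraic numbers with Abel's theorem (the zeros of a function of the coordinate ring have sum zero) and descends to
the rationals.  The chains stop: for the primes 2 and 3 because of Fermat's descent and Fermat's theorem for cubes,
for 5 and 7 because the valuation of the parameter at a suitable prime is divided by 5 or 7 in each step.
-/

set_option autoImplicit false

namespace Pool.Agent.Results.MP_9e6228_nt.TorsionAtMostTwo

open Pool.Agent.RkT

private theorem incl {n m n' m' : ℕ} (h : ∀ E : WeierstrassCurve ℚ, E.IsElliptic →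
    Nonempty (AddCommGroup.torsion E.toAffine.Point ≃+ ZMod n × ZMod m) →
    ∃ E' : WeierstrassCurve ℚ, E'.IsElliptic ∧
      Nonempty (AddCommGroup.torsion E'.toAffine.Point ≃+ ZMod n' × ZMod m') ∧
      Module.rank ℤ E'.toAffine.Point = Module.rank ℤ E.toAffine.Point) : Ranks n m ⊆ Ranks n' m' := by
  rintro r ⟨E, hE, hT, rfl⟩
  exact h E hE hT

private theorem t28 : Ranks 2 8 ⊆ Ranks 8 1 :=
  incl (pass (p := 2) (M := ZMod 2 × ZMod (2 ^ 3)) (M' := ZMod (2 ^ 3)) (O := ZMod 1) Nat.prime_two (prim_prim2 3)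
    (prim_prim 3) (fun _ _ => Subsingleton.elim _ _) (rt _).symm
    (AddEquiv.prodCongr (zc rfl) (AddEquiv.refl _)) (fun _ _ _ hΔ h => arr_8 hΔ h))

private theorem t8 : Ranks 8 1 ⊆ Ranks 2 4 :=
  incl (pass (p := 2) (M := ZMod (2 ^ 3)) (M' := ZMod 2 × ZMod (2 ^ 2)) (O := ZMod 1) Nat.prime_two (prim_prim 3)
    (prim_prim2 2) (fun _ _ => Subsingleton.elim _ _) (AddEquiv.prodCongr (zc rfl) (AddEquiv.refl _))
    (rt _) arr_824)

private theorem t24 : Ranks 2 4 ⊆ Ranks 4 1 :=
  incl (pass (p := 2) (M := ZMod 2 × ZMod (2 ^ 2)) (M' := ZMod (2 ^ 2)) (O := ZMod 1) Nat.prime_two (prim_prim2 2)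
    (prim_prim 2) (fun _ _ => Subsingleton.elim _ _) (rt _).symm
    (AddEquiv.prodCongr (zc rfl) (AddEquiv.refl _)) (fun _ _ _ hΔ h => arr_4 hΔ h))

private theorem t4 : Ranks 4 1 ⊆ Ranks 2 2 :=
  incl (pass (p := 2) (M := ZMod (2 ^ 2)) (M' := ZMod 2 × ZMod (2 ^ 1)) (O := ZMod 1) Nat.prime_two (prim_prim 2)
    (prim_prim2 1) (fun _ _ => Subsingleton.elim _ _) (AddEquiv.prodCongr (zc rfl) (AddEquiv.refl _))
    (rt _) arr_822)

private theorem t22 : Ranks 2 2 ⊆ Ranks 2 1 :=
  incl (pass (p := 2) (M := ZMod 2 × ZMod (2 ^ 1)) (M' := ZMod (2 ^ 1)) (O := ZMod 1) Nat.prime_two (prim_prim2 1)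
    (prim_prim 1) (fun _ _ => Subsingleton.elim _ _) (rt _).symm
    (AddEquiv.prodCongr (zc rfl) (AddEquiv.refl _)) arr_222)

private theorem t9 : Ranks 9 1 ⊆ Ranks 3 1 :=
  incl (pass (p := 3) (M := ZMod (3 ^ 2)) (M' := ZMod (3 ^ 1)) (O := ZMod 1) Nat.prime_three (prim_prim 2)
    (prim_prim 1) (fun _ _ => Subsingleton.elim _ _) (AddEquiv.prodCongr (zc rfl) (AddEquiv.refl _))
    (AddEquiv.prodCongr (zc rfl) (AddEquiv.refl _)) arr_93)

private theorem t3 : Ranks 3 1 ⊆ Ranks 1 1 :=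
  incl (pass (p := 3) (M := ZMod 3) (M' := ZMod 1) (O := ZMod 1) Nat.prime_three three_kill
    (one_kill 3) (fun _ _ => Subsingleton.elim _ _) (AddEquiv.refl _) (AddEquiv.refl _) arr_31)

private theorem t5 : Ranks 5 1 ⊆ Ranks 1 1 :=
  incl (pass (p := 5) (M := ZMod 5) (M' := ZMod 1) (O := ZMod 1) Nat.prime_five five_kill
    (one_kill 5) (fun _ _ => Subsingleton.elim _ _) (AddEquiv.refl _) (AddEquiv.refl _) arr_51)

private theorem t7 : Ranks 7 1 ⊆ Ranks 1 1 :=
  incl (pass (p := 7) (M := ZMod 7) (M' := ZMod 1) (O := ZMod 1) (by norm_num) seven_kill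
    (one_kill 7) (fun _ _ => Subsingleton.elim _ _) (AddEquiv.refl _) (AddEquiv.refl _) arr_71)

private theorem t10 : Ranks 10 1 ⊆ Ranks 2 1 :=
  incl (pass (p := 5) (M := ZMod 5) (M' := ZMod 1) (O := ZMod 2) Nat.prime_five five_kill
    (one_kill 5) (by decide) ((rt _).trans (crt (by norm_num) (by norm_num)))
    AddEquiv.prodComm arr_51)

private theorem t12 : Ranks 12 1 ⊆ Ranks 2 6 :=
  incl (pass (p := 2) (M := ZMod (2 ^ 2)) (M' := ZMod 2 × ZMod (2 ^ 1)) (O := ZMod 3) Nat.prime_two (prim_prim 2)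
    (prim_prim2 1) (by decide) ((rt _).trans (crt (by norm_num) (by norm_num)))
    (AddEquiv.prodAssoc.trans (AddEquiv.prodCongr (AddEquiv.refl _)
      (crt (by norm_num) (by norm_num) : ZMod 6 ≃+ ZMod (2 ^ 1) × ZMod 3).symm)) arr_822)

private theorem t26 : Ranks 2 6 ⊆ Ranks 6 1 :=
  incl (pass (p := 2) (M := ZMod 2 × ZMod (2 ^ 1)) (M' := ZMod (2 ^ 1)) (O := ZMod 3) Nat.prime_two (prim_prim2 1)
    (prim_prim 1) (by decide)
    ((AddEquiv.prodCongr (AddEquiv.refl _)
      (crt (by norm_num) (by norm_num) : ZMod 6 ≃+ ZMod (2 ^ 1) × ZMod 3)).trans AddEquiv.prodAssoc.symm)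
    ((crt (by norm_num) (by norm_num) : ZMod 6 ≃+ ZMod (2 ^ 1) × ZMod 3).symm.trans (rt _).symm) arr_222)

private theorem t6 : Ranks 6 1 ⊆ Ranks 2 1 :=
  incl (pass (p := 3) (M := ZMod 3) (M' := ZMod 1) (O := ZMod 2) Nat.prime_three three_kill
    (one_kill 3) (by decide) ((rt _).trans (crt (by norm_num) (by norm_num)))
    AddEquiv.prodComm arr_31)

private theorem t12' : Ranks 12 1 ⊆ Ranks 4 1 :=
  incl (pass (p := 3) (M := ZMod 3) (M' := ZMod 1) (O := ZMod 4) Nat.prime_three three_kill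
    (one_kill 3) (by decide) ((rt _).trans (crt (by norm_num) (by norm_num)))
    AddEquiv.prodComm arr_31)

private theorem t26' : Ranks 2 6 ⊆ Ranks 2 2 :=
  incl (pass (p := 3) (M := ZMod 3) (M' := ZMod 1) (O := ZMod 2 × ZMod 2) Nat.prime_three three_kill
    (one_kill 3) (by decide)
    (((AddEquiv.prodCongr (AddEquiv.refl _)
      (crt (by norm_num) (by norm_num) : ZMod 6 ≃+ ZMod 2 × ZMod 3)).trans AddEquiv.prodAssoc.symm).trans
      AddEquiv.prodComm)
    (AddEquiv.prodComm.trans (rt _)) arr_31)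

private theorem b_le {n m n' m' : ℕ} (h : Ranks n m ⊆ Ranks n' m') : B n m ≤ B n' m' :=
  biSup_mono h

private theorem b_top {n m n' m' : ℕ} (h : Ranks n m ⊆ Ranks n' m') (h' : B n m = ⊤) : B n' m' = ⊤ :=
  top_le_iff.1 (h' ▸ b_le h)

theorem result :
    (Ranks 2 8 ⊆ Ranks 8 1 ∧ Ranks 8 1 ⊆ Ranks 2 4 ∧ Ranks 2 4 ⊆ Ranks 4 1 ∧ Ranks 4 1 ⊆ Ranks 2 2 ∧
      Ranks 2 2 ⊆ Ranks 2 1 ∧ Ranks 12 1 ⊆ Ranks 2 6 ∧ Ranks 2 6 ⊆ Ranks 6 1 ∧ Ranks 6 1 ⊆ Ranks 2 1 ∧
      Ranks 12 1 ⊆ Ranks 4 1 ∧ Ranks 2 6 ⊆ Ranks 2 2 ∧ Ranks 9 1 ⊆ Ranks 3 1 ∧ Ranks 3 1 ⊆ Ranks 1 1 ∧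
      Ranks 5 1 ⊆ Ranks 1 1 ∧ Ranks 7 1 ⊆ Ranks 1 1 ∧ Ranks 10 1 ⊆ Ranks 2 1) ∧
    ((∃ T ∈ [(1, 1), (2, 1), (3, 1), (4, 1), (5, 1), (6, 1), (7, 1), (8, 1), (9, 1), (10, 1), (12, 1),
        (2, 2), (2, 4), (2, 6), (2, 8)], B T.1 T.2 = ⊤) ↔ B 1 1 = ⊤ ∨ B 2 1 = ⊤) ∧
    ((∀ T ∈ [(1, 1), (2, 1), (3, 1), (4, 1), (5, 1), (6, 1), (7, 1), (8, 1), (9, 1), (10, 1), (12, 1),
        (2, 2), (2, 4), (2, 6), (2, 8)], B T.1 T.2 = ⊤) ↔
      ∀ T ∈ [(5, 1), (7, 1), (9, 1), (10, 1), (12, 1), (2, 8)], B T.1 T.2 = ⊤) := by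
  refine ⟨⟨t28, t8, t24, t4, t22, t12, t26, t6, t12', t26', t9, t3, t5, t7, t10⟩, ?_, ?_⟩
  · simp only [List.mem_cons, List.mem_nil_iff, or_false, exists_eq_or_imp, exists_eq_left]
    have a9 := t9.trans t3
    have a4 := t4.trans t22
    have a24 := t24.trans a4
    have a8 := t8.trans a24
    have a28 := t28.trans a8
    have a26 := t26.trans t6
    have a12 := t12.trans a26
    constructor
    · rintro (h | h | h | h | h | h | h | h | h | h | h | h | h | h | h)
      · exact Or.inl h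
      · exact Or.inr h
      · exact Or.inl (b_top t3 h)
      · exact Or.inr (b_top a4 h)
      · exact Or.inl (b_top t5 h)
      · exact Or.inr (b_top t6 h)
      · exact Or.inl (b_top t7 h)
      · exact Or.inr (b_top a8 h)
      · exact Or.inl (b_top a9 h)
      · exact Or.inr (b_top t10 h)
      · exact Or.inr (b_top a12 h)
      · exact Or.inr (b_top t22 h)
      · exact Or.inr (b_top a24 h)
      · exact Or.inr (b_top a26 h)
      · exact Or.inr (b_top a28 h)
    · rintro (h | h)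
      · exact Or.inl h
      · exact Or.inr (Or.inl h)
  · simp only [List.mem_cons, List.mem_nil_iff, or_false, forall_eq_or_imp, forall_eq]
    constructor
    · rintro ⟨h1, h2, h3, h4, h5, h6, h7, h8, h9, h10, h12, h22, h24, h26, h28⟩
      exact ⟨h5, h7, h9, h10, h12, h28⟩
    · rintro ⟨h5, h7, h9, h10, h12, h28⟩
      have h3 := b_top t9 h9
      have h8 := b_top t28 h28
      have h24 := b_top t8 h8
      have h4 := b_top t24 h24
      have h22 := b_top t4 h4
      have h2 := b_top t22 h22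
      have h26 := b_top t12 h12
      exact ⟨b_top t3 h3, h2, h3, h4, h5, b_top t26 h26, h7, h8, h9, h10, h12, h22, h24, h26, h28⟩

end Pool.Agent.Results.MP_9e6228_nt.TorsionAtMostTwo
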