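import Pool.Agent.InfR.Base7

/-!
# Infinitely many elliptic curves over ℚ with torsion group ℤ/7 and rank at least 3

The curves are `E_t : y² + (t² - 3t + 1) x y - t (1 - t)³ y = x³ - t (1 - t) x²`, where
`z₁² = t² + 7t + 1`, `z₂² = 25t² + 66t + 9` (a curve of genus one with the Weierstrass equation
`y² = x³ - 197x² + 9720x`).  Three points of `E_t` have the abscissas
`t (1-t)² (7t+1)/z₁²`, `t (1-t)³/(1+t)²`, `t (1-t)² (109t+16)/(16 z₁²)`.
The torsion subgroup and the independence are found by reduction modulo small primes; the theorem of Mazur is not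
used.
-/

set_option autoImplicit false

namespace Pool.Agent.Results.MP_9e6228_nt.TorsionSevenRankThree

open Pool.Agent.InfR

theorem result : Set.Infinite {j : ℚ | ∃ (E : WeierstrassCurve ℚ) (_ : E.IsElliptic),
    E.j = j ∧ HasTorsion E 7 1 ∧ 3 ≤ Module.rank ℤ E.toAffine.Point} :=
  final7

end Pool.Agent.Results.MP_9e6228_nt.TorsionSevenRankThree
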